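import Pool.Agent.V1161.SD.Frame

/-! The nodes and the dual vector. -/

namespace Pool.Agent.V1161.SD

open MeasureTheory Set Filter Topology Asymptotics

/-- The nodes. -/
noncomputable def nd (β : ℝ) (n : ℕ) : ℝ := 1 / 4 * (n : ℝ) ^ β

lemma nd_nonneg (β : ℝ) (n : ℕ) : 0 ≤ nd β n := by
  unfold nd
  positivity

lemma nd_pos (β : ℝ) {n : ℕ} (hn : n ≠ 0) : 0 < nd β n := by
  unfold nd
  have : (0 : ℝ) < n := by exact_mod_cast Nat.pos_of_ne_zero hn
  positivity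

lemma nd_mono {β : ℝ} (hβ : 0 < β) : Monotone (nd β) := by
  intro m n h
  unfold nd
  have := Real.rpow_le_rpow (Nat.cast_nonneg m) (Nat.cast_le.2 h : (m : ℝ) ≤ n) hβ.le
  linarith

lemma nd_step {β : ℝ} (hβ : 0 < β) (hβ1 : β ≤ 1) (n : ℕ) : nd β (n + 1) - nd β n ≤ 1 / 4 := by
  unfold nd
  have := Real.rpow_add_le_add_rpow (a := (n : ℝ)) (b := 1) (p := β) (Nat.cast_nonneg n)
    zero_le_one hβ.le hβ1
  rw [Real.one_rpow] at this
  push_cast
  linarith

lemma nd_one (β : ℝ) : nd β 1 = 1 / 4 := by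
  unfold nd
  simp

lemma nd_two {β : ℝ} (hβ : 0 < β) (hβ1 : β ≤ 1) : nd β 2 ≤ 1 / 2 := by
  have := nd_step hβ hβ1 1
  rw [nd_one] at this
  norm_num at this
  linarith

lemma nd_tendsto {β : ℝ} (hβ : 0 < β) : Tendsto (nd β) atTop atTop := by
  unfold nd
  exact ((tendsto_rpow_atTop hβ).comp tendsto_natCast_atTop_atTop).const_mul_atTop
    (by norm_num)

/-- The division points. -/
noncomputable def pp (β : ℝ) : ℕ → ℝ
  | 0 => 0
  | j + 1 => nd β (j + 2)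

lemma pp_mono {β : ℝ} (hβ : 0 < β) : Monotone (pp β) := by
  refine monotone_nat_of_le_succ fun n => ?_
  cases n with
  | zero => exact nd_nonneg β 2
  | succ n => exact nd_mono hβ (Nat.le_succ _)

lemma pp_step {β : ℝ} (hβ : 0 < β) (hβ1 : β ≤ 1) (j : ℕ) : pp β (j + 1) - pp β j ≤ 1 / 2 := by
  cases j with
  | zero =>
    have := nd_two hβ hβ1
    simpa [pp] using this
  | succ n =>
    have := nd_step hβ hβ1 (n + 2)
    show nd β (n + 1 + 2) - nd β (n + 2) ≤ 1 / 2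
    have e : n + 1 + 2 = n + 2 + 1 := by ring
    rw [e]
    linarith

lemma pp_tendsto {β : ℝ} (hβ : 0 < β) : Tendsto (pp β) atTop atTop := by
  rw [← tendsto_add_atTop_iff_nat 1]
  exact (tendsto_add_atTop_iff_nat (f := nd β) 2).2 (nd_tendsto hβ)

/-- Stretched exponentials are summable against powers. -/
lemma summable_decay {β c : ℝ} (hβ : 0 < β) (hc : 0 < c) (A : ℝ) :
    Summable fun n : ℕ => (n : ℝ) ^ A * Real.exp (-c * (n : ℝ) ^ β) := by
  refine summable_of_isBigO_nat (g := fun n : ℕ => (n : ℝ) ^ (-2 : ℝ))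
    (Real.summable_nat_rpow.2 (by norm_num)) ?_
  have h1 := (isLittleO_exp_neg_mul_rpow_atTop hc ((-A - 2) / β)).comp_tendsto
    ((tendsto_rpow_atTop hβ).comp tendsto_natCast_atTop_atTop)
  have h2 := (isBigO_refl (fun n : ℕ => (n : ℝ) ^ A) atTop).mul h1.isBigO
  refine h2.congr' (Eventually.of_forall fun n => rfl) ?_
  filter_upwards [eventually_gt_atTop 0] with n hn
  have hn' : (0 : ℝ) < n := by exact_mod_cast hn
  simp only [Function.comp_apply]
  rw [← Real.rpow_mul hn'.le, ← Real.rpow_add hn']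
  congr 1
  field_simp
  ring

lemma fk_nonneg (k : ℕ) {x : ℝ} (hx : 0 < x) (v : ℝ) : 0 ≤ fk k x v := by
  unfold fk
  positivity

lemma fk_le (k : ℕ) {x : ℝ} (hx : 0 < x) {v : ℝ} (hv : 0 ≤ v) :
    fk k x v ≤ (1 + (x ^ k)⁻¹) * Real.exp (-(min x x⁻¹ * v)) := by
  unfold fk
  have h1 : Real.exp (-(x * v)) ≤ Real.exp (-(min x x⁻¹ * v)) := by
    apply Real.exp_le_exp.2
    have := mul_le_mul_of_nonneg_right (min_le_left x x⁻¹) hv
    linarith
  have h2 : Real.exp (-(x⁻¹ * v)) ≤ Real.exp (-(min x x⁻¹ * v)) := by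
    apply Real.exp_le_exp.2
    have := mul_le_mul_of_nonneg_right (min_le_right x x⁻¹) hv
    linarith
  have h3 : 0 ≤ (x ^ k)⁻¹ := by positivity
  nlinarith [mul_le_mul_of_nonneg_left h2 h3]

lemma summable_sq (k : ℕ) {β : ℝ} (hβ : 0 < β) {x : ℝ} (hx : 0 < x) :
    Summable fun n : ℕ => nd β n ^ k * fk k x (nd β n) ^ 2 := by
  have hm : 0 < min x x⁻¹ := lt_min hx (by positivity)
  set m := min x x⁻¹ with hmdef
  have h := (summable_decay hβ (c := m / 2) (by positivity) (β * k)).mul_left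
    ((1 / 4 : ℝ) ^ k * (1 + (x ^ k)⁻¹) ^ 2)
  refine h.of_nonneg_of_le (fun n => mul_nonneg (pow_nonneg (nd_nonneg β n) k) (sq_nonneg _)) ?_
  intro n
  have h1 := fk_le k hx (nd_nonneg β n)
  have h2 := fk_nonneg k hx (nd β n)
  have h3 : fk k x (nd β n) ^ 2 ≤ ((1 + (x ^ k)⁻¹) * Real.exp (-(m * nd β n))) ^ 2 :=
    pow_le_pow_left₀ h2 h1 2
  have h4 : nd β n ^ k = (1 / 4 : ℝ) ^ k * (n : ℝ) ^ (β * k) := by
    unfold nd
    rw [mul_pow, Real.rpow_mul (Nat.cast_nonneg n), Real.rpow_natCast]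
  have h5 : Real.exp (-(m * nd β n)) ^ 2 = Real.exp (-(m / 2) * (n : ℝ) ^ β) := by
    rw [← Real.exp_nat_mul]
    unfold nd
    congr 1
    push_cast
    ring
  calc nd β n ^ k * fk k x (nd β n) ^ 2
      ≤ nd β n ^ k * ((1 + (x ^ k)⁻¹) * Real.exp (-(m * nd β n))) ^ 2 :=
        mul_le_mul_of_nonneg_left h3 (pow_nonneg (nd_nonneg β n) k)
    _ = _ := by
        rw [mul_pow, h5, h4]
        ring

/-- The sample vector. -/
noncomputable def sv (k : ℕ) (β : ℝ) (x : ℝ) (j : ℕ) : ℝ :=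
  Real.sqrt (nd β (j + 2) ^ k) * fk k x (nd β (j + 2))

lemma sv_memlp (k : ℕ) {β : ℝ} (hβ : 0 < β) {x : ℝ} (hx : 0 < x) :
    Memℓp (E := fun _ : ℕ => ℝ) (sv k β x) 2 := by
  apply memℓp_gen
  have h := (summable_nat_add_iff 2).2 (summable_sq k hβ hx)
  refine h.congr fun j => ?_
  have e : (2 : ENNReal).toReal = ((2 : ℕ) : ℝ) := by norm_num
  rw [e, Real.rpow_natCast, Real.norm_eq_abs, sq_abs]
  unfold sv
  rw [mul_pow, Real.sq_sqrt (pow_nonneg (nd_nonneg β _) k)]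

/-- The sample vector as an element of the Hilbert space. -/
noncomputable def SV (k : ℕ) {β : ℝ} (hβ : 0 < β) (x : Pos) : lp (fun _ : ℕ => ℝ) 2 :=
  ⟨sv k β x, sv_memlp k hβ x.2⟩

/-- Sampling map on finite combinations. -/
noncomputable def SS (k : ℕ) {β : ℝ} (hβ : 0 < β) : (Pos →₀ ℝ) →ₗ[ℝ] lp (fun _ : ℕ => ℝ) 2 :=
  Finsupp.linearCombination ℝ (SV k hβ)

/-- Value at the first node. -/
noncomputable def LL (k : ℕ) (β : ℝ) : (Pos →₀ ℝ) →ₗ[ℝ] ℝ :=
  Finsupp.linearCombination ℝ (fun x : Pos => fk k x (nd β 1))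

lemma LL_apply (k : ℕ) (β : ℝ) (α : Pos →₀ ℝ) : LL k β α = FF k α (nd β 1) := by
  unfold LL FF
  rw [Finsupp.linearCombination_apply, Finsupp.sum]
  rfl

lemma SS_apply (k : ℕ) {β : ℝ} (hβ : 0 < β) (α : Pos →₀ ℝ) (j : ℕ) :
    (SS k hβ α : ℕ → ℝ) j = Real.sqrt (nd β (j + 2) ^ k) * FF k α (nd β (j + 2)) := by
  unfold SS FF
  rw [Finsupp.linearCombination_apply, Finsupp.sum, lp.coeFn_sum, Finset.sum_apply,
    Finset.mul_sum]
  refine Finset.sum_congr rfl fun x _ => ?_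
  rw [lp.coeFn_smul]
  show α x * sv k β x j = _
  unfold sv
  ring

lemma SS_norm (k : ℕ) {β : ℝ} (hβ : 0 < β) (α : Pos →₀ ℝ) :
    HasSum (fun j => nd β (j + 2) ^ k * FF k α (nd β (j + 2)) ^ 2) (‖SS k hβ α‖ ^ 2) := by
  have h := lp.hasSum_inner (𝕜 := ℝ) (SS k hβ α) (SS k hβ α)
  rw [real_inner_self_eq_norm_sq] at h
  have e : (fun j => nd β (j + 2) ^ k * FF k α (nd β (j + 2)) ^ 2)
      = fun j => inner ℝ ((SS k hβ α : ℕ → ℝ) j) ((SS k hβ α : ℕ → ℝ) j) := by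
    funext j
    rw [real_inner_self_eq_norm_sq, SS_apply, Real.norm_eq_abs, sq_abs, mul_pow,
      Real.sq_sqrt (pow_nonneg (nd_nonneg β _) k)]
  rw [e]
  exact h

/-- The key bound: the value at the first node is controlled by the other samples. -/
lemma LL_bound (k : ℕ) {β : ℝ} (hβ : 0 < β) (hβ1 : β ≤ 1) (α : Pos →₀ ℝ) :
    LL k β α ^ 2 ≤ 4 * 4 ^ k * ‖SS k hβ α‖ ^ 2 := by
  have hS := SS_norm k hβ α
  set T : ℝ := ‖SS k hβ α‖ ^ 2 with hT
  have hsum : (∑' j, pp β (j + 1) ^ k * FF k α (pp β (j + 1)) ^ 2) = T := hS.tsum_eq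
  have h1 := sampling (k := k) (f := FF k α) (f' := FD k α) (hasDerivAt_FF k α)
    (continuous_FD k α) (p := pp β) rfl (pp_mono hβ) (pp_step hβ hβ1) (pp_tendsto hβ)
    hS.summable (int_FF k α) (int_FD k α)
  rw [hsum, energy] at h1
  set a : ℝ := ∫ v in Ioi (0 : ℝ), v ^ k * FF k α v ^ 2 with ha
  have h2 : a ≤ 2 * T := by linarith
  have h3 := point_ineq (k := k) (hasDerivAt_FF k α) (continuous_FD k α) (l := nd β 1)
    (x := nd β 1) (r := nd β 2) (nd_nonneg β 1) le_rfl (nd_mono hβ (by norm_num))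
  have h4 : ∫ v in nd β 1..nd β 2, v ^ k * FD k α v ^ 2 ≤ a := by
    rw [ha, ← energy]
    rw [intervalIntegral.integral_of_le (nd_mono hβ (by norm_num))]
    refine setIntegral_mono_set (int_FD k α) ?_ ?_
    · refine (ae_restrict_iff' measurableSet_Ioi).2 (Eventually.of_forall fun v hv => ?_)
      exact mul_nonneg (pow_nonneg (le_of_lt hv) k) (sq_nonneg _)
    · refine Eventually.of_forall fun v hv => ?_
      exact lt_of_le_of_lt (nd_nonneg β 1) hv.1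
  have h5 : nd β 2 ^ k * FF k α (nd β 2) ^ 2 ≤ T := by
    have := hS.summable.sum_le_tsum {0} (fun j _ =>
      mul_nonneg (pow_nonneg (nd_nonneg β (j + 2)) k) (sq_nonneg (FF k α (nd β (j + 2)))))
    rw [hS.tsum_eq] at this
    simpa using this
  have h6 : nd β 2 - nd β 1 ≤ 1 / 2 := by
    have := nd_step hβ hβ1 1
    norm_num at this ⊢
    linarith
  have h7 : 0 ≤ nd β 2 - nd β 1 := sub_nonneg.2 (nd_mono hβ (by norm_num))
  have h8 : 0 ≤ ∫ v in nd β 1..nd β 2, v ^ k * FD k α v ^ 2 :=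
    intervalIntegral.integral_nonneg (nd_mono hβ (by norm_num)) fun v hv =>
      mul_nonneg (pow_nonneg ((nd_nonneg β 1).trans hv.1) k) (sq_nonneg _)
  have h9 : nd β 1 ^ k * FF k α (nd β 1) ^ 2 ≤ 4 * T := by
    nlinarith
  rw [LL_apply]
  have e : nd β 1 ^ k = (4 ^ k)⁻¹ := by
    rw [nd_one, one_div, inv_pow]
  rw [e] at h9
  have h10 : (0 : ℝ) < 4 ^ k := by positivity
  calc FF k α (nd β 1) ^ 2 = 4 ^ k * ((4 ^ k)⁻¹ * FF k α (nd β 1) ^ 2) := by
        field_simp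
    _ ≤ 4 ^ k * (4 * T) := mul_le_mul_of_nonneg_left h9 h10.le
    _ = _ := by ring

/-- A bounded functional factors through the sampling map. -/
lemma exists_functional (k : ℕ) {β : ℝ} (hβ : 0 < β) (hβ1 : β ≤ 1) :
    ∃ y : lp (fun _ : ℕ => ℝ) 2, ∀ α : Pos →₀ ℝ, LL k β α = inner ℝ y (SS k hβ α) := by
  set M : ℝ := Real.sqrt (4 * 4 ^ k) with hM
  have hb : ∀ α, |LL k β α| ≤ M * ‖SS k hβ α‖ := by
    intro α
    have h := LL_bound k hβ hβ1 α
    have h0 : (0 : ℝ) ≤ 4 * 4 ^ k := by positivity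
    have h2 : LL k β α ^ 2 ≤ (M * ‖SS k hβ α‖) ^ 2 := by
      rw [mul_pow, hM, Real.sq_sqrt h0]
      exact h
    exact abs_le_of_sq_le_sq h2 (mul_nonneg (Real.sqrt_nonneg _) (norm_nonneg _))
  have hker : LinearMap.ker (SS k hβ) ≤ LinearMap.ker (LL k β) := by
    intro α hα
    rw [LinearMap.mem_ker] at hα ⊢
    have := hb α
    rw [hα, norm_zero, mul_zero] at this
    exact abs_eq_zero.1 (le_antisymm this (abs_nonneg _))
  let g : LinearMap.range (SS k hβ) →ₗ[ℝ] ℝ :=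
    ((LinearMap.ker (SS k hβ)).liftQ (LL k β) hker).comp
      (SS k hβ).quotKerEquivRange.symm.toLinearMap
  have hg : ∀ α, g ⟨SS k hβ α, LinearMap.mem_range_self _ α⟩ = LL k β α := by
    intro α
    have e : (SS k hβ).quotKerEquivRange.symm ⟨SS k hβ α, LinearMap.mem_range_self _ α⟩
        = Submodule.Quotient.mk α := by
      rw [LinearEquiv.symm_apply_eq]
      rfl
    show ((LinearMap.ker (SS k hβ)).liftQ (LL k β) hker)
      ((SS k hβ).quotKerEquivRange.symm ⟨SS k hβ α, LinearMap.mem_range_self _ α⟩) = _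
    rw [e]
    exact Submodule.liftQ_apply _ _ _
  have hgb : ∀ y, ‖g y‖ ≤ M * ‖y‖ := by
    rintro ⟨y, α, rfl⟩
    rw [hg]
    exact hb α
  let gc : LinearMap.range (SS k hβ) →L[ℝ] ℝ := g.mkContinuous M hgb
  obtain ⟨G, hG, -⟩ := exists_extension_norm_eq (LinearMap.range (SS k hβ)) gc
  refine ⟨(InnerProductSpace.toDual ℝ (lp (fun _ : ℕ => ℝ) 2)).symm G, fun α => ?_⟩
  rw [InnerProductSpace.toDual_symm_apply]
  have := hG ⟨SS k hβ α, LinearMap.mem_range_self _ α⟩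
  rw [this]
  exact (hg α).symm

/-- The dual vector. -/
theorem exists_dual (k : ℕ) {β : ℝ} (hβ : 0 < β) (hβ1 : β ≤ 1) :
    ∃ b : ℕ → ℝ, (Summable fun j => b j ^ 2) ∧ ∀ x : ℝ, 0 < x →
      HasSum (fun j => b j * (Real.sqrt (nd β (j + 2) ^ k) * fk k x (nd β (j + 2))))
        (fk k x (nd β 1)) := by
  obtain ⟨y, hy⟩ := exists_functional k hβ hβ1
  refine ⟨fun j => (y : ℕ → ℝ) j, ?_, fun x hx => ?_⟩
  · have h := lp.summable_inner (𝕜 := ℝ) y y
    refine h.congr fun j => ?_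
    rw [real_inner_self_eq_norm_sq, Real.norm_eq_abs, sq_abs]
  · have h := lp.hasSum_inner (𝕜 := ℝ) y (SS k hβ (Finsupp.single ⟨x, hx⟩ 1))
    rw [← hy, LL_apply] at h
    have e : FF k (Finsupp.single (⟨x, hx⟩ : Pos) 1) = fk k x := by
      funext v
      unfold FF
      rw [Finsupp.support_single _ one_ne_zero]
      simp
    rw [e] at h
    have e2 : (fun j => (y : ℕ → ℝ) j * (Real.sqrt (nd β (j + 2) ^ k) * fk k x (nd β (j + 2))))
        = fun j => inner ℝ ((y : ℕ → ℝ) j)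
          ((SS k hβ (Finsupp.single ⟨x, hx⟩ 1) : ℕ → ℝ) j) := by
      funext j
      rw [SS_apply, e]
      simp [mul_comm]
    rw [e2]
    exact h

end Pool.Agent.V1161.SD
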