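import Pool.Agent.V1161.SD.Gauss

/-! Weighted Poincaré inequality and the sampling inequality. -/

namespace Pool.Agent.V1161.SD

open MeasureTheory Set Filter Topology

/-- Cauchy-Schwarz on an interval. -/
lemma sq_integral_le {g : ℝ → ℝ} (hg : Continuous g) {x r : ℝ} (h : x ≤ r) :
    (∫ v in x..r, g v) ^ 2 ≤ (r - x) * ∫ v in x..r, g v ^ 2 := by
  rcases h.eq_or_lt with rfl | hlt
  · simp
  set m : ℝ := (∫ v in x..r, g v) / (r - x) with hm
  have hpos : 0 < r - x := sub_pos.2 hlt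
  have h0 : 0 ≤ ∫ v in x..r, (g v - m) ^ 2 :=
    intervalIntegral.integral_nonneg h fun v _ => sq_nonneg _
  have i1 : IntervalIntegrable (fun v => g v ^ 2) volume x r := (hg.pow 2).intervalIntegrable _ _
  have i2 : IntervalIntegrable (fun v => 2 * m * g v) volume x r :=
    (continuous_const.mul hg).intervalIntegrable _ _
  have i3 : IntervalIntegrable (fun _ : ℝ => m ^ 2) volume x r :=
    continuous_const.intervalIntegrable _ _
  have e : ∫ v in x..r, (g v - m) ^ 2
      = (∫ v in x..r, g v ^ 2) - 2 * m * (∫ v in x..r, g v) + m ^ 2 * (r - x) := by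
    have e1 : (fun v => (g v - m) ^ 2) = fun v => (g v ^ 2 - 2 * m * g v) + m ^ 2 := by
      funext v
      ring
    rw [e1, intervalIntegral.integral_add (i1.sub i2) i3, intervalIntegral.integral_sub i1 i2,
      intervalIntegral.integral_const_mul, intervalIntegral.integral_const, smul_eq_mul]
    ring
  rw [e] at h0
  have hI : (∫ v in x..r, g v) = m * (r - x) := by
    rw [hm]
    field_simp
  rw [hI] at h0 ⊢
  nlinarith

section

variable {k : ℕ} {f f' : ℝ → ℝ}

lemma cont_wt (hf' : Continuous f') : Continuous fun v => v ^ k * f' v ^ 2 :=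
  (continuous_pow k).mul (hf'.pow 2)

/-- Pointwise inequality. -/
lemma point_ineq (hd : ∀ v, HasDerivAt f (f' v) v) (hf' : Continuous f') {l x r : ℝ}
    (hl : 0 ≤ l) (hlx : l ≤ x) (hxr : x ≤ r) :
    x ^ k * f x ^ 2 ≤ 2 * (r ^ k * f r ^ 2)
      + 2 * (r - l) * ∫ v in l..r, v ^ k * f' v ^ 2 := by
  have hx0 : 0 ≤ x := hl.trans hlx
  have hr0 : 0 ≤ r := hx0.trans hxr
  have e1 : f r - f x = ∫ v in x..r, f' v := by
    rw [intervalIntegral.integral_eq_sub_of_hasDerivAt (fun v _ => hd v)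
      (hf'.intervalIntegrable _ _)]
  have h1 := sq_integral_le hf' hxr
  rw [← e1] at h1
  have h2 : x ^ k * ∫ v in x..r, f' v ^ 2 ≤ ∫ v in x..r, v ^ k * f' v ^ 2 := by
    rw [← intervalIntegral.integral_const_mul]
    refine intervalIntegral.integral_mono_on hxr
      ((continuous_const.mul (hf'.pow 2)).intervalIntegrable _ _)
      ((cont_wt hf').intervalIntegrable _ _) ?_
    intro v hv
    exact mul_le_mul_of_nonneg_right (pow_le_pow_left₀ hx0 hv.1 k) (sq_nonneg _)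
  have h3 : ∫ v in x..r, v ^ k * f' v ^ 2 ≤ ∫ v in l..r, v ^ k * f' v ^ 2 := by
    rw [← intervalIntegral.integral_add_adjacent_intervals
      ((cont_wt hf').intervalIntegrable l x) ((cont_wt hf').intervalIntegrable x r)]
    have : 0 ≤ ∫ v in l..x, v ^ k * f' v ^ 2 :=
      intervalIntegral.integral_nonneg hlx fun v hv =>
        mul_nonneg (pow_nonneg (hl.trans hv.1) k) (sq_nonneg _)
    linarith
  have h4 : 0 ≤ ∫ v in l..r, v ^ k * f' v ^ 2 :=
    intervalIntegral.integral_nonneg (hlx.trans hxr) fun v hv =>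
      mul_nonneg (pow_nonneg (hl.trans hv.1) k) (sq_nonneg _)
  have hxk : 0 ≤ x ^ k := pow_nonneg hx0 k
  have hxrk : x ^ k ≤ r ^ k := pow_le_pow_left₀ hx0 hxr k
  have h5 : x ^ k * (f r - f x) ^ 2 ≤ (r - l) * ∫ v in l..r, v ^ k * f' v ^ 2 := by
    calc x ^ k * (f r - f x) ^ 2 ≤ x ^ k * ((r - x) * ∫ v in x..r, f' v ^ 2) :=
          mul_le_mul_of_nonneg_left h1 hxk
      _ = (r - x) * (x ^ k * ∫ v in x..r, f' v ^ 2) := by ring
      _ ≤ (r - x) * ∫ v in l..r, v ^ k * f' v ^ 2 :=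
          mul_le_mul_of_nonneg_left (h2.trans h3) (by linarith)
      _ ≤ (r - l) * ∫ v in l..r, v ^ k * f' v ^ 2 :=
          mul_le_mul_of_nonneg_right (by linarith) h4
  have h6 : f x ^ 2 ≤ 2 * f r ^ 2 + 2 * (f r - f x) ^ 2 := by
    nlinarith [sq_nonneg (f r - (f r - f x) - 0), sq_nonneg (f r + (f r - f x))]
  calc x ^ k * f x ^ 2 ≤ x ^ k * (2 * f r ^ 2 + 2 * (f r - f x) ^ 2) :=
        mul_le_mul_of_nonneg_left h6 hxk
    _ = 2 * (x ^ k * f r ^ 2) + 2 * (x ^ k * (f r - f x) ^ 2) := by ring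
    _ ≤ 2 * (r ^ k * f r ^ 2) + 2 * ((r - l) * ∫ v in l..r, v ^ k * f' v ^ 2) := by
        have := mul_le_mul_of_nonneg_right hxrk (sq_nonneg (f r))
        linarith
    _ = _ := by ring

/-- Interval inequality. -/
lemma interval_ineq (hd : ∀ v, HasDerivAt f (f' v) v) (hf' : Continuous f') {l r : ℝ}
    (hl : 0 ≤ l) (hlr : l ≤ r) (hh : r - l ≤ 1 / 2) :
    ∫ v in l..r, v ^ k * f v ^ 2 ≤ r ^ k * f r ^ 2
      + 1 / 2 * ∫ v in l..r, v ^ k * f' v ^ 2 := by
  have hf : Continuous f := continuous_iff_continuousAt.2 fun v => (hd v).continuousAt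
  set J : ℝ := ∫ v in l..r, v ^ k * f' v ^ 2 with hJ
  have hJ0 : 0 ≤ J :=
    intervalIntegral.integral_nonneg hlr fun v hv =>
      mul_nonneg (pow_nonneg (hl.trans hv.1) k) (sq_nonneg _)
  have h1 : ∫ v in l..r, v ^ k * f v ^ 2
      ≤ ∫ _v in l..r, (2 * (r ^ k * f r ^ 2) + 2 * (r - l) * J) := by
    refine intervalIntegral.integral_mono_on hlr
      (((continuous_pow k).mul (hf.pow 2)).intervalIntegrable _ _)
      (continuous_const.intervalIntegrable _ _) ?_
    intro v hv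
    exact point_ineq hd hf' hl hv.1 hv.2
  rw [intervalIntegral.integral_const, smul_eq_mul] at h1
  have hr0 : 0 ≤ r ^ k * f r ^ 2 := mul_nonneg (pow_nonneg (hl.trans hlr) k) (sq_nonneg _)
  have hrl : 0 ≤ r - l := sub_nonneg.2 hlr
  have h2 : (r - l) * (2 * (r ^ k * f r ^ 2)) ≤ r ^ k * f r ^ 2 := by nlinarith
  have h3 : (r - l) * (2 * (r - l) * J) ≤ 1 / 2 * J := by
    have : (r - l) * (r - l) ≤ 1 / 2 * (1 / 2) := by nlinarith
    nlinarith
  calc _ ≤ (r - l) * (2 * (r ^ k * f r ^ 2) + 2 * (r - l) * J) := h1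
    _ = (r - l) * (2 * (r ^ k * f r ^ 2)) + (r - l) * (2 * (r - l) * J) := by ring
    _ ≤ _ := add_le_add h2 h3

/-- Sampling inequality. -/
lemma sampling (hd : ∀ v, HasDerivAt f (f' v) v) (hf' : Continuous f') {p : ℕ → ℝ}
    (hp0 : p 0 = 0) (hmono : Monotone p) (hstep : ∀ j, p (j + 1) - p j ≤ 1 / 2)
    (htop : Tendsto p atTop atTop)
    (hs : Summable fun j => p (j + 1) ^ k * f (p (j + 1)) ^ 2)
    (hi : IntegrableOn (fun v => v ^ k * f v ^ 2) (Ioi 0))
    (hi' : IntegrableOn (fun v => v ^ k * f' v ^ 2) (Ioi 0)) :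
    ∫ v in Ioi (0 : ℝ), v ^ k * f v ^ 2 ≤ (∑' j, p (j + 1) ^ k * f (p (j + 1)) ^ 2)
      + 1 / 2 * ∫ v in Ioi (0 : ℝ), v ^ k * f' v ^ 2 := by
  have hf : Continuous f := continuous_iff_continuousAt.2 fun v => (hd v).continuousAt
  have hpos : ∀ j, 0 ≤ p j := fun j => by
    have := hmono (Nat.zero_le j)
    rwa [hp0] at this
  have hc : Continuous fun v => v ^ k * f v ^ 2 := (continuous_pow k).mul (hf.pow 2)
  have t1 := intervalIntegral_tendsto_integral_Ioi 0 hi htop
  have t2 := intervalIntegral_tendsto_integral_Ioi 0 hi' htop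
  have key : ∀ N, ∫ v in (0 : ℝ)..p N, v ^ k * f v ^ 2
      ≤ (∑' j, p (j + 1) ^ k * f (p (j + 1)) ^ 2)
        + 1 / 2 * ∫ v in (0 : ℝ)..p N, v ^ k * f' v ^ 2 := by
    intro N
    have s1 := intervalIntegral.sum_integral_adjacent_intervals (a := p) (n := N)
      (f := fun v => v ^ k * f v ^ 2) (μ := volume) (fun j _ => hc.intervalIntegrable _ _)
    have s2 := intervalIntegral.sum_integral_adjacent_intervals (a := p) (n := N)
      (f := fun v => v ^ k * f' v ^ 2) (μ := volume)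
      (fun j _ => (cont_wt hf').intervalIntegrable _ _)
    rw [hp0] at s1 s2
    rw [← s1, ← s2, Finset.mul_sum]
    calc ∑ j ∈ Finset.range N, ∫ v in p j..p (j + 1), v ^ k * f v ^ 2
        ≤ ∑ j ∈ Finset.range N, (p (j + 1) ^ k * f (p (j + 1)) ^ 2
          + 1 / 2 * ∫ v in p j..p (j + 1), v ^ k * f' v ^ 2) :=
          Finset.sum_le_sum fun j _ => interval_ineq hd hf' (hpos j) (hmono (Nat.le_succ j))
            (hstep j)
      _ = (∑ j ∈ Finset.range N, p (j + 1) ^ k * f (p (j + 1)) ^ 2)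
          + ∑ j ∈ Finset.range N, 1 / 2 * ∫ v in p j..p (j + 1), v ^ k * f' v ^ 2 :=
          Finset.sum_add_distrib
      _ ≤ _ := by
          have := hs.sum_le_tsum (Finset.range N) (fun j _ =>
            mul_nonneg (pow_nonneg (hpos (j + 1)) k) (sq_nonneg (f (p (j + 1)))))
          linarith
  exact le_of_tendsto_of_tendsto' t1 ((t2.const_mul (1 / 2)).const_add _) key

end

end Pool.Agent.V1161.SD
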