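import Mathlib

/-! Self-dual functions `f_x(v) = exp (-x v) + x ^ (-k) exp (-v / x)` and their energy. -/

namespace Pool.Agent.V1161.SD

open MeasureTheory Set Filter Topology

/-- The self-dual function attached to `x`. -/
noncomputable def fk (k : ℕ) (x v : ℝ) : ℝ :=
  Real.exp (-(x * v)) + (x ^ k)⁻¹ * Real.exp (-(x⁻¹ * v))

/-- Its derivative. -/
noncomputable def fkd (k : ℕ) (x v : ℝ) : ℝ :=
  -x * Real.exp (-(x * v)) + -(x ^ (k + 1))⁻¹ * Real.exp (-(x⁻¹ * v))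

lemma hasDerivAt_fk (k : ℕ) (x v : ℝ) :
    HasDerivAt (fk k x) (fkd k x v) v := by
  have h1 : HasDerivAt (fun v : ℝ => Real.exp (-(x * v))) (Real.exp (-(x * v)) * (-(x * 1))) v :=
    (((hasDerivAt_id v).const_mul x).neg).exp
  have h2 : HasDerivAt (fun v : ℝ => Real.exp (-(x⁻¹ * v)))
      (Real.exp (-(x⁻¹ * v)) * (-(x⁻¹ * 1))) v :=
    (((hasDerivAt_id v).const_mul x⁻¹).neg).exp
  have h3 := h1.add (h2.const_mul ((x ^ k)⁻¹))
  refine h3.congr_deriv ?_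
  unfold fkd
  rw [pow_succ, mul_inv]
  ring

lemma integrableOn_pow_exp (k : ℕ) {c : ℝ} (hc : 0 < c) :
    IntegrableOn (fun v : ℝ => v ^ k * Real.exp (-(c * v))) (Ioi 0) := by
  have h := integrableOn_rpow_mul_exp_neg_mul_rpow (p := 1) (s := (k : ℝ)) (b := c)
    (by have : (0 : ℝ) ≤ k := Nat.cast_nonneg k
        linarith) one_pos hc
  refine h.congr_fun ?_ measurableSet_Ioi
  intro v _
  simp [Real.rpow_natCast]

lemma integral_pow_exp (k : ℕ) {c : ℝ} (hc : 0 < c) :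
    ∫ v in Ioi (0 : ℝ), v ^ k * Real.exp (-(c * v)) = (k.factorial : ℝ) / c ^ (k + 1) := by
  have h := Real.integral_rpow_mul_exp_neg_mul_Ioi (a := (k : ℝ) + 1) (r := c)
    (by positivity) hc
  rw [Real.Gamma_nat_eq_factorial] at h
  have h2 : ∫ v in Ioi (0 : ℝ), v ^ k * Real.exp (-(c * v))
      = ∫ t in Ioi (0 : ℝ), t ^ ((k : ℝ) + 1 - 1) * Real.exp (-(c * t)) := by
    refine setIntegral_congr_fun measurableSet_Ioi ?_
    intro v _
    simp [Real.rpow_natCast]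
  rw [h2, h]
  have h3 : ((1 / c) ^ ((k : ℝ) + 1) : ℝ) = (1 / c) ^ (k + 1) := by
    rw [← Real.rpow_natCast]
    push_cast
    rfl
  rw [h3, one_div, inv_pow]
  field_simp

/-- Integral of four terms. -/
lemma four_terms (k : ℕ) {c₁ c₂ c₃ c₄ : ℝ} (h₁ : 0 < c₁) (h₂ : 0 < c₂) (h₃ : 0 < c₃)
    (h₄ : 0 < c₄) (A B C D : ℝ) :
    IntegrableOn (fun v : ℝ => A * (v ^ k * Real.exp (-(c₁ * v)))
      + B * (v ^ k * Real.exp (-(c₂ * v))) + C * (v ^ k * Real.exp (-(c₃ * v)))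
      + D * (v ^ k * Real.exp (-(c₄ * v)))) (Ioi 0) ∧
    ∫ v in Ioi (0 : ℝ), (A * (v ^ k * Real.exp (-(c₁ * v)))
      + B * (v ^ k * Real.exp (-(c₂ * v))) + C * (v ^ k * Real.exp (-(c₃ * v)))
      + D * (v ^ k * Real.exp (-(c₄ * v))))
      = (k.factorial : ℝ) * (A / c₁ ^ (k + 1) + B / c₂ ^ (k + 1) + C / c₃ ^ (k + 1)
        + D / c₄ ^ (k + 1)) := by
  have i₁ := (integrableOn_pow_exp k h₁).const_mul A
  have i₂ := (integrableOn_pow_exp k h₂).const_mul B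
  have i₃ := (integrableOn_pow_exp k h₃).const_mul C
  have i₄ := (integrableOn_pow_exp k h₄).const_mul D
  refine ⟨((i₁.add i₂).add i₃).add i₄, ?_⟩
  have e1 := integral_add ((i₁.add i₂).add i₃) i₄
  have e2 := integral_add (i₁.add i₂) i₃
  have e3 := integral_add i₁ i₂
  simp only [Pi.add_apply] at e1 e2 e3
  rw [e1, e2, e3, integral_const_mul, integral_const_mul, integral_const_mul,
    integral_const_mul, integral_pow_exp k h₁, integral_pow_exp k h₂, integral_pow_exp k h₃,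
    integral_pow_exp k h₄]
  ring

lemma exp_mul_exp (a b v : ℝ) :
    Real.exp (-(a * v)) * Real.exp (-(b * v)) = Real.exp (-((a + b) * v)) := by
  rw [← Real.exp_add]
  ring_nf

lemma pair_expand (k : ℕ) (x y v : ℝ) :
    v ^ k * (fk k x v * fk k y v) =
      1 * (v ^ k * Real.exp (-((x + y) * v)))
      + (y ^ k)⁻¹ * (v ^ k * Real.exp (-((x + y⁻¹) * v)))
      + (x ^ k)⁻¹ * (v ^ k * Real.exp (-((x⁻¹ + y) * v)))
      + ((x ^ k)⁻¹ * (y ^ k)⁻¹) * (v ^ k * Real.exp (-((x⁻¹ + y⁻¹) * v))) := by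
  rw [← exp_mul_exp x y, ← exp_mul_exp x y⁻¹, ← exp_mul_exp x⁻¹ y, ← exp_mul_exp x⁻¹ y⁻¹]
  unfold fk
  ring

lemma pair_expand_d (k : ℕ) (x y v : ℝ) :
    v ^ k * (fkd k x v * fkd k y v) =
      (x * y) * (v ^ k * Real.exp (-((x + y) * v)))
      + (x * (y ^ (k + 1))⁻¹) * (v ^ k * Real.exp (-((x + y⁻¹) * v)))
      + ((x ^ (k + 1))⁻¹ * y) * (v ^ k * Real.exp (-((x⁻¹ + y) * v)))
      + ((x ^ (k + 1))⁻¹ * (y ^ (k + 1))⁻¹)
        * (v ^ k * Real.exp (-((x⁻¹ + y⁻¹) * v))) := by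
  rw [← exp_mul_exp x y, ← exp_mul_exp x y⁻¹, ← exp_mul_exp x⁻¹ y, ← exp_mul_exp x⁻¹ y⁻¹]
  unfold fkd
  ring

lemma pair_int (k : ℕ) {x y : ℝ} (hx : 0 < x) (hy : 0 < y) :
    IntegrableOn (fun v : ℝ => v ^ k * (fk k x v * fk k y v)) (Ioi 0) := by
  have h := (four_terms k (c₁ := x + y) (c₂ := x + y⁻¹) (c₃ := x⁻¹ + y) (c₄ := x⁻¹ + y⁻¹)
    (by positivity) (by positivity) (by positivity) (by positivity)
    1 (y ^ k)⁻¹ (x ^ k)⁻¹ ((x ^ k)⁻¹ * (y ^ k)⁻¹)).1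
  refine h.congr_fun ?_ measurableSet_Ioi
  intro v _
  exact (pair_expand k x y v).symm

lemma pair_int_d (k : ℕ) {x y : ℝ} (hx : 0 < x) (hy : 0 < y) :
    IntegrableOn (fun v : ℝ => v ^ k * (fkd k x v * fkd k y v)) (Ioi 0) := by
  have h := (four_terms k (c₁ := x + y) (c₂ := x + y⁻¹) (c₃ := x⁻¹ + y) (c₄ := x⁻¹ + y⁻¹)
    (by positivity) (by positivity) (by positivity) (by positivity)
    (x * y) (x * (y ^ (k + 1))⁻¹) ((x ^ (k + 1))⁻¹ * y)
    ((x ^ (k + 1))⁻¹ * (y ^ (k + 1))⁻¹)).1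
  refine h.congr_fun ?_ measurableSet_Ioi
  intro v _
  exact (pair_expand_d k x y v).symm

lemma pair_eq (k : ℕ) {x y : ℝ} (hx : 0 < x) (hy : 0 < y) :
    ∫ v in Ioi (0 : ℝ), v ^ k * (fk k x v * fk k y v)
      = ∫ v in Ioi (0 : ℝ), v ^ k * (fkd k x v * fkd k y v) := by
  simp only [pair_expand, pair_expand_d]
  rw [(four_terms k (c₁ := x + y) (c₂ := x + y⁻¹) (c₃ := x⁻¹ + y) (c₄ := x⁻¹ + y⁻¹)
    (by positivity) (by positivity) (by positivity) (by positivity)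
    1 (y ^ k)⁻¹ (x ^ k)⁻¹ ((x ^ k)⁻¹ * (y ^ k)⁻¹)).2,
    (four_terms k (c₁ := x + y) (c₂ := x + y⁻¹) (c₃ := x⁻¹ + y) (c₄ := x⁻¹ + y⁻¹)
    (by positivity) (by positivity) (by positivity) (by positivity)
    (x * y) (x * (y ^ (k + 1))⁻¹) ((x ^ (k + 1))⁻¹ * y)
    ((x ^ (k + 1))⁻¹ * (y ^ (k + 1))⁻¹)).2]
  congr 1
  have e1 : x + y⁻¹ = (x * y + 1) / y := by field_simp
  have e2 : x⁻¹ + y = (x * y + 1) / x := by field_simp; ring
  have e3 : x⁻¹ + y⁻¹ = (x + y) / (x * y) := by field_simp; ring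
  rw [e1, e2, e3, div_pow, div_pow, div_pow]
  have p1 : 0 < x * y + 1 := by positivity
  have p2 : 0 < x + y := by positivity
  generalize hA : (x * y + 1) ^ (k + 1) = A
  generalize hB : (x + y) ^ (k + 1) = B
  have hA0 : 0 < A := by rw [← hA]; positivity
  have hB0 : 0 < B := by rw [← hB]; positivity
  have hxk : 0 < x ^ k := by positivity
  have hyk : 0 < y ^ k := by positivity
  rw [mul_pow, pow_succ x k, pow_succ y k]
  generalize x ^ k = X at *
  generalize y ^ k = Y at *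
  field_simp
  ring

/-- Positive reals. -/
abbrev Pos : Type := {x : ℝ // 0 < x}

/-- Finite combinations. -/
noncomputable def FF (k : ℕ) (α : Pos →₀ ℝ) (v : ℝ) : ℝ :=
  ∑ x ∈ α.support, α x * fk k x v

/-- Their derivatives. -/
noncomputable def FD (k : ℕ) (α : Pos →₀ ℝ) (v : ℝ) : ℝ :=
  ∑ x ∈ α.support, α x * fkd k x v

lemma hasDerivAt_FF (k : ℕ) (α : Pos →₀ ℝ) (v : ℝ) : HasDerivAt (FF k α) (FD k α v) v := by
  unfold FF FD
  exact HasDerivAt.fun_sum fun x _ => (hasDerivAt_fk k x v).const_mul (α x)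

lemma continuous_fkd (k : ℕ) (x : ℝ) : Continuous (fkd k x) := by
  unfold fkd
  fun_prop

lemma continuous_FD (k : ℕ) (α : Pos →₀ ℝ) : Continuous (FD k α) := by
  unfold FD
  exact continuous_finsetSum _ fun x _ => continuous_const.mul (continuous_fkd k x)

lemma continuous_FF (k : ℕ) (α : Pos →₀ ℝ) : Continuous (FF k α) :=
  continuous_iff_continuousAt.2 fun v => (hasDerivAt_FF k α v).continuousAt

lemma sq_expand (k : ℕ) (α : Pos →₀ ℝ) (v : ℝ) :
    v ^ k * FF k α v ^ 2 = ∑ x ∈ α.support, ∑ y ∈ α.support,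
      (α x * α y) * (v ^ k * (fk k x v * fk k y v)) := by
  unfold FF
  rw [sq, Finset.sum_mul_sum, Finset.mul_sum]
  refine Finset.sum_congr rfl fun x _ => ?_
  rw [Finset.mul_sum]
  refine Finset.sum_congr rfl fun y _ => ?_
  ring

lemma sq_expand_d (k : ℕ) (α : Pos →₀ ℝ) (v : ℝ) :
    v ^ k * FD k α v ^ 2 = ∑ x ∈ α.support, ∑ y ∈ α.support,
      (α x * α y) * (v ^ k * (fkd k x v * fkd k y v)) := by
  unfold FD
  rw [sq, Finset.sum_mul_sum, Finset.mul_sum]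
  refine Finset.sum_congr rfl fun x _ => ?_
  rw [Finset.mul_sum]
  refine Finset.sum_congr rfl fun y _ => ?_
  ring

lemma int_FF (k : ℕ) (α : Pos →₀ ℝ) :
    IntegrableOn (fun v : ℝ => v ^ k * FF k α v ^ 2) (Ioi 0) := by
  simp only [sq_expand]
  exact integrable_finsetSum _ fun x _ => integrable_finsetSum _ fun y _ =>
    (pair_int k x.2 y.2).const_mul _

lemma int_FD (k : ℕ) (α : Pos →₀ ℝ) :
    IntegrableOn (fun v : ℝ => v ^ k * FD k α v ^ 2) (Ioi 0) := by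
  simp only [sq_expand_d]
  exact integrable_finsetSum _ fun x _ => integrable_finsetSum _ fun y _ =>
    (pair_int_d k x.2 y.2).const_mul _

/-- The two energies agree. -/
lemma energy (k : ℕ) (α : Pos →₀ ℝ) :
    ∫ v in Ioi (0 : ℝ), v ^ k * FD k α v ^ 2 = ∫ v in Ioi (0 : ℝ), v ^ k * FF k α v ^ 2 := by
  simp only [sq_expand, sq_expand_d]
  rw [integral_finsetSum _ fun x _ => integrable_finsetSum _ fun y _ =>
      (pair_int_d k x.2 y.2).const_mul _,
    integral_finsetSum _ fun x _ => integrable_finsetSum _ fun y _ =>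
      (pair_int k x.2 y.2).const_mul _]
  refine Finset.sum_congr rfl fun x _ => ?_
  rw [integral_finsetSum _ fun y _ => (pair_int_d k x.2 y.2).const_mul _,
    integral_finsetSum _ fun y _ => (pair_int k x.2 y.2).const_mul _]
  refine Finset.sum_congr rfl fun y _ => ?_
  rw [integral_const_mul, integral_const_mul, pair_eq k x.2 y.2]

end Pool.Agent.V1161.SD
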