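import Pool.Agent.V1161.SD.Dual

/-! The theta series and its Mellin transform. -/

namespace Pool.Agent.V1161.SD

open MeasureTheory Set Filter Topology Asymptotics

/-- Admissible coefficients. -/
structure Adm (k : ℕ) (β : ℝ) (c : ℕ → ℝ) : Prop where
  zero : c 0 = 0
  one : c 1 = 1
  sq : Summable fun n => c n ^ 2 / nd β n ^ k
  rel : ∀ x : ℝ, 0 < x → HasSum (fun n => c n * fk k x (nd β n)) 0

/-- Coefficients obtained from the dual vector. -/
noncomputable def cf (k : ℕ) (β : ℝ) (b : ℕ → ℝ) : ℕ → ℝ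
  | 0 => 0
  | 1 => 1
  | j + 2 => -(b j * Real.sqrt (nd β (j + 2) ^ k))

theorem exists_adm (k : ℕ) {β : ℝ} (hβ : 0 < β) (hβ1 : β ≤ 1) : ∃ c, Adm k β c := by
  obtain ⟨b, hb, hrel⟩ := exists_dual k hβ hβ1
  refine ⟨cf k β b, rfl, rfl, ?_, ?_⟩
  · refine (summable_nat_add_iff 2).1 (hb.congr fun j => ?_)
    show b j ^ 2 = (-(b j * Real.sqrt (nd β (j + 2) ^ k))) ^ 2 / nd β (j + 2) ^ k
    have h0 : 0 < nd β (j + 2) ^ k := pow_pos (nd_pos β (by omega)) k
    rw [neg_sq, mul_pow, Real.sq_sqrt h0.le]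
    field_simp
  · intro x hx
    have h1 : HasSum (fun j => cf k β b (j + 2) * fk k x (nd β (j + 2)))
        (-(fk k x (nd β 1))) := by
      have h2 := (hrel x hx).neg
      have e : (fun j => cf k β b (j + 2) * fk k x (nd β (j + 2)))
          = fun j => -(b j * (Real.sqrt (nd β (j + 2) ^ k) * fk k x (nd β (j + 2)))) := by
        funext j
        show -(b j * Real.sqrt (nd β (j + 2) ^ k)) * fk k x (nd β (j + 2)) = _
        ring
      rw [e]
      exact h2
    have h3 := (hasSum_nat_add_iff (f := fun n => cf k β b n * fk k x (nd β n)) 2).1 h1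
    have e2 : -(fk k x (nd β 1)) + ∑ i ∈ Finset.range 2, cf k β b i * fk k x (nd β i) = 0 := by
      rw [Finset.sum_range_succ, Finset.sum_range_succ, Finset.sum_range_zero]
      show -(fk k x (nd β 1)) + (0 + 0 * fk k x (nd β 0) + 1 * fk k x (nd β 1)) = 0
      ring
    rwa [e2] at h3

section

variable {k : ℕ} {β : ℝ} {c : ℕ → ℝ}

lemma Adm.bound (h : Adm k β c) : ∃ K : ℝ, 0 ≤ K ∧ ∀ n, |c n| ≤ K * (1 + nd β n ^ k) := by
  set T : ℝ := ∑' n, c n ^ 2 / nd β n ^ k with hT
  have hnn : ∀ n, 0 ≤ c n ^ 2 / nd β n ^ k := fun n =>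
    div_nonneg (sq_nonneg _) (pow_nonneg (nd_nonneg β n) k)
  have hT0 : 0 ≤ T := tsum_nonneg hnn
  refine ⟨1 + T, by linarith, fun n => ?_⟩
  have hp : 0 ≤ nd β n ^ k := pow_nonneg (nd_nonneg β n) k
  rcases Nat.eq_zero_or_pos n with rfl | hn
  · rw [h.zero, abs_zero]
    positivity
  · have h0 : 0 < nd β n ^ k := pow_pos (nd_pos β (by omega)) k
    have h1 : c n ^ 2 / nd β n ^ k ≤ T := by
      have := h.sq.sum_le_tsum {n} (fun j _ => hnn j)
      simpa using this
    rw [div_le_iff₀ h0] at h1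
    refine abs_le_of_sq_le_sq ?_ (by positivity)
    nlinarith [mul_nonneg hT0 h0.le, sq_nonneg (nd β n ^ k), sq_nonneg T,
      mul_nonneg (mul_nonneg hT0 hT0) h0.le, mul_nonneg (mul_nonneg hT0 hT0) (sq_nonneg (nd β n ^ k)),
      mul_nonneg hT0 (sq_nonneg (nd β n ^ k))]

lemma summable_pow_decay (k : ℕ) {β : ℝ} (hβ : 0 < β) {x : ℝ} (hx : 0 < x) :
    Summable fun n : ℕ => (1 + nd β n ^ k) * Real.exp (-(nd β n * x)) := by
  have h1 := summable_decay hβ (c := x / 4) (by positivity) 0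
  have h2 := (summable_decay hβ (c := x / 4) (by positivity) (β * k)).mul_left ((1 / 4 : ℝ) ^ k)
  refine (h1.add h2).congr fun n => ?_
  have h4 : nd β n ^ k = (1 / 4 : ℝ) ^ k * (n : ℝ) ^ (β * k) := by
    unfold nd
    rw [mul_pow, Real.rpow_mul (Nat.cast_nonneg n), Real.rpow_natCast]
  have h5 : Real.exp (-(nd β n * x)) = Real.exp (-(x / 4) * (n : ℝ) ^ β) := by
    unfold nd
    congr 1
    ring
  rw [h4, h5, Real.rpow_zero]
  ring

lemma Adm.summable (h : Adm k β c) (hβ : 0 < β) {x : ℝ} (hx : 0 < x) :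
    Summable fun n => |c n| * Real.exp (-(nd β n * x)) := by
  obtain ⟨K, hK, hb⟩ := h.bound
  refine ((summable_pow_decay k hβ hx).mul_left K).of_nonneg_of_le
    (fun n => by positivity) fun n => ?_
  rw [← mul_assoc]
  exact mul_le_mul_of_nonneg_right (hb n) (Real.exp_nonneg _)

/-- The theta series. -/
noncomputable def theta (β : ℝ) (c : ℕ → ℝ) (x : ℝ) : ℝ :=
  ∑' n, c n * Real.exp (-(nd β n * x))

lemma Adm.hasSum (h : Adm k β c) (hβ : 0 < β) {x : ℝ} (hx : 0 < x) :
    HasSum (fun n => c n * Real.exp (-(nd β n * x))) (theta β c x) := by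
  refine Summable.hasSum (Summable.of_norm ?_)
  refine (h.summable hβ hx).congr fun n => ?_
  rw [norm_mul, Real.norm_eq_abs, Real.norm_eq_abs, Real.abs_exp]

lemma Adm.feq (h : Adm k β c) (hβ : 0 < β) {x : ℝ} (hx : 0 < x) :
    theta β c (1 / x) = -(x ^ k) * theta β c x := by
  have h1 := h.hasSum hβ hx
  have h2 := h.hasSum hβ (x := x⁻¹) (by positivity)
  have h3 := h1.add (h2.mul_left ((x ^ k)⁻¹))
  have h4 := h.rel x hx
  have e : (fun n => c n * fk k x (nd β n)) = fun n =>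
      c n * Real.exp (-(nd β n * x)) + (x ^ k)⁻¹ * (c n * Real.exp (-(nd β n * x⁻¹))) := by
    funext n
    unfold fk
    rw [mul_comm x, mul_comm x⁻¹ (nd β n)]
    ring
  rw [e] at h4
  have h5 := h3.unique h4
  rw [one_div]
  have hxk : 0 < x ^ k := by positivity
  have h7 : x ^ k * ((x ^ k)⁻¹ * theta β c x⁻¹) = theta β c x⁻¹ :=
    mul_inv_cancel_left₀ hxk.ne' _
  linear_combination (x ^ k) * h5 - h7

lemma Adm.continuousOn (h : Adm k β c) (hβ : 0 < β) : ContinuousOn (theta β c) (Ioi 0) := by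
  intro x hx
  have hx' : 0 < x / 2 := half_pos hx
  have h1 : ContinuousOn (theta β c) (Ioi (x / 2)) := by
    unfold theta
    refine continuousOn_tsum (u := fun n => |c n| * Real.exp (-(nd β n * (x / 2))))
      (fun n => by fun_prop) (h.summable hβ hx') ?_
    intro n y hy
    rw [norm_mul, Real.norm_eq_abs, Real.norm_eq_abs, Real.abs_exp]
    refine mul_le_mul_of_nonneg_left (Real.exp_le_exp.2 ?_) (abs_nonneg _)
    have := mul_le_mul_of_nonneg_left (le_of_lt hy) (nd_nonneg β n)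
    linarith
  have hx2 : x / 2 < x := half_lt_self hx
  exact (h1.continuousAt (Ioi_mem_nhds hx2)).continuousWithinAt

lemma Adm.decay (h : Adm k β c) (hβ : 0 < β) :
    ∃ C : ℝ, 0 ≤ C ∧ ∀ x : ℝ, 1 ≤ x → |theta β c x| ≤ C * Real.exp (-(1 / 8) * x) := by
  have hs := h.summable hβ (x := 1 / 2) (by norm_num)
  refine ⟨∑' n, |c n| * Real.exp (-(nd β n * (1 / 2))), tsum_nonneg fun n => by positivity,
    fun x hx => ?_⟩
  have hx0 : 0 < x := by linarith
  have h1 := h.summable hβ hx0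
  have h2 : |theta β c x| ≤ ∑' n, |c n| * Real.exp (-(nd β n * x)) := by
    have h3 : Summable fun n => ‖c n * Real.exp (-(nd β n * x))‖ := by
      refine h1.congr fun n => ?_
      rw [norm_mul, Real.norm_eq_abs, Real.norm_eq_abs, Real.abs_exp]
    have h4 := norm_tsum_le_tsum_norm h3
    rw [Real.norm_eq_abs] at h4
    refine h4.trans (le_of_eq (tsum_congr fun n => ?_))
    rw [norm_mul, Real.norm_eq_abs, Real.norm_eq_abs, Real.abs_exp]
  refine h2.trans ?_
  rw [← tsum_mul_right]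
  refine h1.tsum_le_tsum (fun n => ?_) (hs.mul_right _)
  rcases Nat.eq_zero_or_pos n with rfl | hn
  · rw [h.zero, abs_zero]
    simp
  · rw [mul_assoc, ← Real.exp_add]
    refine mul_le_mul_of_nonneg_left (Real.exp_le_exp.2 ?_) (abs_nonneg _)
    have h5 : 1 / 4 ≤ nd β n := by
      have := nd_mono hβ hn
      rwa [show Nat.succ 0 = 1 from rfl, nd_one] at this
    nlinarith [mul_le_mul h5 hx (by norm_num) (nd_nonneg β n)]

/-- The functional equation pair. -/
noncomputable def Adm.pair (h : Adm k β c) (hβ : 0 < β) (hk : 0 < k) : WeakFEPair ℂ where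
  f := fun x => (theta β c x : ℂ)
  g := fun x => (theta β c x : ℂ)
  k := k
  ε := -1
  f₀ := 0
  g₀ := 0
  hf_int := (Complex.continuous_ofReal.comp_continuousOn (h.continuousOn hβ)).locallyIntegrableOn
    measurableSet_Ioi
  hg_int := (Complex.continuous_ofReal.comp_continuousOn (h.continuousOn hβ)).locallyIntegrableOn
    measurableSet_Ioi
  hk := by exact_mod_cast hk
  hε := by norm_num
  h_feq := by
    intro x hx
    rw [h.feq hβ hx, Real.rpow_natCast]
    push_cast
    simp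
  hf_top := by
    intro r
    obtain ⟨C, hC, hd⟩ := h.decay hβ
    have h1 := (isLittleO_exp_neg_mul_rpow_atTop (a := 1 / 8) (by norm_num) r).isBigO
    refine IsBigO.trans ?_ h1
    refine IsBigO.of_bound C ?_
    filter_upwards [eventually_ge_atTop 1] with x hx
    rw [sub_zero, Complex.norm_real, Real.norm_eq_abs, Real.norm_eq_abs, Real.abs_exp]
    exact hd x hx
  hg_top := by
    intro r
    obtain ⟨C, hC, hd⟩ := h.decay hβ
    have h1 := (isLittleO_exp_neg_mul_rpow_atTop (a := 1 / 8) (by norm_num) r).isBigO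
    refine IsBigO.trans ?_ h1
    refine IsBigO.of_bound C ?_
    filter_upwards [eventually_ge_atTop 1] with x hx
    rw [sub_zero, Complex.norm_real, Real.norm_eq_abs, Real.norm_eq_abs, Real.abs_exp]
    exact hd x hx

lemma Adm.strong (h : Adm k β c) (hβ : 0 < β) (hk : 0 < k) : IsStrongFEPair (h.pair hβ hk) :=
  ⟨rfl, rfl⟩

/-- The completed function. -/
noncomputable def Lam (β : ℝ) (c : ℕ → ℝ) (z : ℂ) : ℂ :=
  mellin (fun x => (theta β c x : ℂ)) z

lemma Adm.lam_eq (h : Adm k β c) (hβ : 0 < β) (hk : 0 < k) : (h.pair hβ hk).Λ = Lam β c :=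
  (h.strong hβ hk).Λ_eq

lemma Adm.lam_diff (h : Adm k β c) (hβ : 0 < β) (hk : 0 < k) : Differentiable ℂ (Lam β c) := by
  rw [← h.lam_eq hβ hk]
  exact (h.strong hβ hk).differentiable_Λ

lemma Adm.lam_feq (h : Adm k β c) (hβ : 0 < β) (hk : 0 < k) (z : ℂ) :
    Lam β c ((k : ℂ) - z) = -Lam β c z := by
  have h1 := (h.pair hβ hk).functional_equation z
  have h2 : (h.pair hβ hk).symm.Λ = Lam β c := (h.strong hβ hk).symm_Λ_eq
  rw [h2, h.lam_eq hβ hk] at h1
  have h3 : ((h.pair hβ hk).k : ℂ) = (k : ℂ) := by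
    show (((k : ℝ)) : ℂ) = (k : ℂ)
    push_cast
    rfl
  rw [h3] at h1
  rw [h1]
  show (-1 : ℂ) • Lam β c z = _
  simp

lemma Adm.lam_conv (h : Adm k β c) (hβ : 0 < β) (hk : 0 < k) (z : ℂ) :
    MellinConvergent (fun x => (theta β c x : ℂ)) z :=
  ((h.strong hβ hk).hasMellin z).1

/-- Conjugation. -/
lemma lam_conj (β : ℝ) (c : ℕ → ℝ) (z : ℂ) :
    Lam β c ((starRingEnd ℂ) z) = (starRingEnd ℂ) (Lam β c z) := by
  unfold Lam mellin
  rw [← integral_conj]
  refine setIntegral_congr_fun measurableSet_Ioi fun t ht => ?_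
  have ht' : (0 : ℝ) < t := ht
  simp only [smul_eq_mul, map_mul, Complex.conj_ofReal]
  congr 1
  have h1 : Complex.arg (t : ℂ) ≠ Real.pi := by
    rw [Complex.arg_ofReal_of_nonneg ht'.le]
    exact Real.pi_pos.ne
  have h2 := Complex.cpow_conj (t : ℂ) (z - 1) h1
  rw [Complex.conj_ofReal, map_sub, map_one] at h2
  exact h2

end

end Pool.Agent.V1161.SD
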